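import Mathlib

/-!
# Three binary rotations: the parity of the number of disjoint triples for `p = 2 ^ k - 2`

The entries are `x + 8 (y + 2 ^ (k - 3) A)` with `x < 8`, `y = 0` or `y = 2 ^ (k - 3) - 1` (then `4 ≤ x`), `x`, `A`
independent of `k`: the condition is the one for `k = 3`.
-/

set_option autoImplicit false

namespace Pool.Agent.H35.DG

open Finset

/-- the number of the tuples whose entries have pairwise no common binary digit -/
def diagCard (m p q : ℕ) : ℕ :=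
  ((Finset.Nat.antidiagonalTuple m q).filter (fun n : Fin m → ℕ =>
    ∀ i j : Fin m, i ≠ j →
      (p + 1 + 2 * (i : ℕ) - m + n i * (m + p)) &&& (p + 1 + 2 * (j : ℕ) - m + n j * (m + p))
        = 0)).card

private theorem land_iff (x y k : ℕ) :
    x &&& y = 0 ↔ (x % 2 ^ k &&& y % 2 ^ k = 0) ∧ (x / 2 ^ k &&& y / 2 ^ k = 0) := by
  rw [← Nat.and_mod_two_pow, ← Nat.and_div_two_pow]
  constructor
  · intro h
    rw [h]
    simp
  · rintro ⟨h1, h2⟩
    have h3 := Nat.div_add_mod (x &&& y) (2 ^ k)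
    rw [h1, h2] at h3
    simpa using h3.symm

/-- the shape of the entries -/
private theorem shape (j n i : ℕ) (hn : n ≤ 5) (hi : i < 3) :
    ∃ y, (2 ^ (j + 3) - 2 + 1 + 2 * i - 3 + n * (3 + (2 ^ (j + 3) - 2))) % 2 ^ 3 =
        (6 + 1 + 2 * i - 3 + n * (3 + 6)) % 2 ^ 3 ∧
      (2 ^ (j + 3) - 2 + 1 + 2 * i - 3 + n * (3 + (2 ^ (j + 3) - 2))) / 2 ^ 3 =
        2 ^ j * ((6 + 1 + 2 * i - 3 + n * (3 + 6)) / 2 ^ 3) + y ∧ y < 2 ^ j ∧
      (y = 0 ∨ 4 ≤ (6 + 1 + 2 * i - 3 + n * (3 + 6)) % 2 ^ 3) := by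
  have ht : 1 ≤ 2 ^ j := Nat.one_le_two_pow
  have h8 : 2 ^ (j + 3) = 8 * 2 ^ j := by rw [pow_add]; ring
  rw [h8]
  generalize 2 ^ j = t at ht
  by_cases h : 4 ≤ n + 2 * i
  · refine ⟨0, ?_, ?_, ht, Or.inl rfl⟩
    · interval_cases n <;> interval_cases i <;> omega
    · interval_cases n <;> interval_cases i <;> omega
  · refine ⟨t - 1, ?_, ?_, by omega, Or.inr ?_⟩
    · interval_cases n <;> interval_cases i <;> omega
    · interval_cases n <;> interval_cases i <;> omega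
    · interval_cases n <;> interval_cases i <;> omega

private theorem four_land (x y : ℕ) (hx : 4 ≤ x) (hx8 : x < 8) (hy : 4 ≤ y) (hy8 : y < 8) : x &&& y ≠ 0 := by
  interval_cases x <;> interval_cases y <;> decide

private theorem pair (j n i n' i' : ℕ) (hn : n ≤ 5) (hi : i < 3) (hn' : n' ≤ 5) (hi' : i' < 3) :
    ((2 ^ (j + 3) - 2 + 1 + 2 * i - 3 + n * (3 + (2 ^ (j + 3) - 2))) &&&
      (2 ^ (j + 3) - 2 + 1 + 2 * i' - 3 + n' * (3 + (2 ^ (j + 3) - 2))) = 0) ↔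
    ((6 + 1 + 2 * i - 3 + n * (3 + 6)) &&& (6 + 1 + 2 * i' - 3 + n' * (3 + 6)) = 0) := by
  obtain ⟨y, h1, h2, h3, h4⟩ := shape j n i hn hi
  obtain ⟨y', h1', h2', h3', h4'⟩ := shape j n' i' hn' hi'
  rw [land_iff _ _ 3, h1, h1', h2, h2', land_iff (6 + 1 + 2 * i - 3 + n * (3 + 6)) _ 3]
  generalize (6 + 1 + 2 * i - 3 + n * (3 + 6)) = u at *
  generalize (6 + 1 + 2 * i' - 3 + n' * (3 + 6)) = v at *
  have ht : 0 < 2 ^ j := Nat.two_pow_pos j
  rw [land_iff (2 ^ j * (u / 2 ^ 3) + y) _ j, Nat.mul_add_mod, Nat.mul_add_mod, Nat.mod_eq_of_lt h3,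
    Nat.mod_eq_of_lt h3', Nat.mul_add_div ht, Nat.mul_add_div ht, Nat.div_eq_of_lt h3,
    Nat.div_eq_of_lt h3', Nat.add_zero, Nat.add_zero]
  constructor
  · rintro ⟨a, _, b⟩
    exact ⟨a, b⟩
  · rintro ⟨a, b⟩
    refine ⟨a, ?_, b⟩
    rcases h4 with rfl | h4
    · simp
    rcases h4' with rfl | h4'
    · simp
    exact absurd a (four_land _ _ h4 (Nat.mod_lt _ (by norm_num)) h4' (Nat.mod_lt _ (by norm_num)))

private theorem diag_eq (j q : ℕ) (hq : q ≤ 5) : diagCard 3 (2 ^ (j + 3) - 2) q = diagCard 3 6 q := by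
  unfold diagCard
  congr 1
  apply Finset.filter_congr
  intro n hn
  rw [Finset.Nat.mem_antidiagonalTuple] at hn
  have hle : ∀ i, n i ≤ 5 := fun i => by
    have h := Finset.single_le_sum (f := n) (fun i _ => Nat.zero_le _) (Finset.mem_univ i)
    rw [hn] at h
    omega
  refine forall_congr' fun a => forall_congr' fun b => imp_congr_right fun _ => ?_
  exact pair j (n a) a (n b) b (hle a) a.2 (hle b) b.2

theorem three_family (k : ℕ) (hk : 3 ≤ k) :
    Odd (diagCard 3 (2 ^ k - 2) 3) ∧ Odd (diagCard 3 (2 ^ k - 2) 5) := by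
  obtain ⟨j, rfl⟩ : ∃ j, k = j + 3 := ⟨k - 3, by omega⟩
  rw [diag_eq j 3 (by norm_num), diag_eq j 5 (by norm_num)]
  constructor
  · decide +kernel
  · decide +kernel

end Pool.Agent.H35.DG
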